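import Mathlib
import Pool.Agent.helper68.SF.SpecJ

/-!
Project SF (MP_d52931_gt), module JI: the interior vectors.
-/

set_option autoImplicit false

namespace SF

open MeasureTheory Set Filter Topology
open scoped ContDiff

/-- the vector `u_m = 5 cpl v + m v` -/
def JI_u (v : ℤ × ℤ) (m : ℤ) : ℤ × ℤ := (5 : ℤ) • cpl v + m • v

theorem JI_u1 (v : ℤ × ℤ) (m : ℤ) : (JI_u v m).1 = 5 * (cpl v).1 + m * v.1 := by
  simp [JI_u]

theorem JI_u2 (v : ℤ × ℤ) (m : ℤ) : (JI_u v m).2 = 5 * (cpl v).2 + m * v.2 := by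
  simp [JI_u]

theorem JI_dt (v : ℤ × ℤ) (m : ℤ) (h : dt (cpl v) v = 1) : dt (JI_u v m) v = 5 := by
  unfold dt at h ⊢
  rw [JI_u1, JI_u2]
  linear_combination 5 * h

theorem JI_pv (v : ℤ × ℤ) (m : ℤ) (h : dt (cpl v) v = 1) (hv : v ∈ Pv) (hm : ¬ (5 : ℤ) ∣ m) :
    JI_u v m ∈ Pv := by
  have hd := JI_dt v m h
  have hv' : Int.gcd v.1 v.2 = 1 := hv
  show Int.gcd (JI_u v m).1 (JI_u v m).2 = 1
  set d := Int.gcd (JI_u v m).1 (JI_u v m).2 with hdd
  have h1 : (d : ℤ) ∣ (JI_u v m).1 := Int.gcd_dvd_left ..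
  have h2 : (d : ℤ) ∣ (JI_u v m).2 := Int.gcd_dvd_right ..
  have h5 : (d : ℤ) ∣ 5 := by
    rw [← hd]
    unfold dt
    exact dvd_sub (Dvd.dvd.mul_right h1 _) (Dvd.dvd.mul_right h2 _)
  have h5' : d ∣ 5 := by exact_mod_cast h5
  have hp : Nat.Prime 5 := by norm_num
  rcases (Nat.dvd_prime hp).1 h5' with h6 | h6
  · exact h6
  · exfalso
    have hpi : Prime (5 : ℤ) := by
      have := Nat.prime_iff_prime_int.1 hp
      exact_mod_cast this
    rw [h6] at h1 h2
    rw [JI_u1] at h1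
    rw [JI_u2] at h2
    push_cast at h1 h2
    have h3 : (5 : ℤ) ∣ m * v.1 := (Int.dvd_add_right (Dvd.intro _ rfl)).1 h1
    have h4 : (5 : ℤ) ∣ m * v.2 := (Int.dvd_add_right (Dvd.intro _ rfl)).1 h2
    have h3' : (5 : ℤ) ∣ v.1 := (hpi.dvd_or_dvd h3).resolve_left hm
    have h4' : (5 : ℤ) ∣ v.2 := (hpi.dvd_or_dvd h4).resolve_left hm
    have h7 := Int.dvd_coe_gcd h3' h4'
    rw [hv'] at h7
    norm_num at h7

theorem JI_sign_div (a d : ℝ) (hd : 0 < d) : Real.sign (a / d) = Real.sign a := by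
  rcases lt_trichotomy a 0 with h | h | h
  · rw [Real.sign_of_neg h, Real.sign_of_neg (div_neg_of_neg_of_pos h hd)]
  · rw [h, zero_div]
  · rw [Real.sign_of_pos h, Real.sign_of_pos (div_pos h hd)]

theorem JI_ip0 (u v : ℤ × ℤ) (y : ℝ) :
    ip u v 0 y = (u.2 * v.2 : ℤ) + (u.1 * v.1 : ℤ) * y ^ 2 := by
  unfold ip
  push_cast
  ring

/-- a change of sign needs small entries -/
theorem JI_small (u v : ℤ × ℤ) (y : ℝ) (hy : 0 < y) (hd : dt u v = 5) (h1 : v.1 ≠ 0)
    (h2 : v.2 ≠ 0) (hs : Real.sign (ip u v 0 1) ≠ Real.sign (ip u v 0 y)) :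
    |u.1| ≤ 5 ∧ |u.2| ≤ 5 ∧ |v.1| ≤ 5 ∧ |v.2| ≤ 5 := by
  have hPQ : (u.1 * v.1) * (u.2 * v.2) < 0 := by
    by_contra hcon
    push Not at hcon
    apply hs
    rw [JI_ip0, JI_ip0]
    set P := u.1 * v.1 with hP
    set Q := u.2 * v.2 with hQ
    have hne : ¬ (P = 0 ∧ Q = 0) := by
      rintro ⟨hP0, hQ0⟩
      have e1 : u.1 = 0 := (mul_eq_zero.1 hP0).resolve_right h1
      have e2 : u.2 = 0 := (mul_eq_zero.1 hQ0).resolve_right h2
      unfold dt at hd
      rw [e1, e2] at hd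
      norm_num at hd
    have hy2 : 0 < y ^ 2 := by positivity
    rcases mul_nonneg_iff.1 hcon with ⟨a, b⟩ | ⟨a, b⟩
    · have ha : (0 : ℝ) ≤ P := by exact_mod_cast a
      have hb : (0 : ℝ) ≤ Q := by exact_mod_cast b
      have hpos : ∀ t : ℝ, 0 < t → 0 < (Q : ℝ) + P * t := by
        intro t ht
        rcases lt_or_eq_of_le hb with h | h
        · have := mul_nonneg ha ht.le
          linarith
        · have hP' : (P : ℝ) ≠ 0 := by
            intro h0
            exact hne ⟨by exact_mod_cast h0, by exact_mod_cast h.symm⟩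
          have hP'' : (0 : ℝ) < P := lt_of_le_of_ne ha (Ne.symm hP')
          have := mul_pos hP'' ht
          linarith
      rw [Real.sign_of_pos (hpos _ (by norm_num)), Real.sign_of_pos (hpos _ hy2)]
    · have ha : (P : ℝ) ≤ 0 := by exact_mod_cast a
      have hb : (Q : ℝ) ≤ 0 := by exact_mod_cast b
      have hneg : ∀ t : ℝ, 0 < t → (Q : ℝ) + P * t < 0 := by
        intro t ht
        rcases lt_or_eq_of_le hb with h | h
        · have := mul_nonneg (neg_nonneg.2 ha) ht.le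
          linarith
        · have hP' : (P : ℝ) ≠ 0 := by
            intro h0
            exact hne ⟨by exact_mod_cast h0, by exact_mod_cast h⟩
          have hP'' : (P : ℝ) < 0 := lt_of_le_of_ne ha hP'
          have := mul_pos (neg_pos.2 hP'') ht
          linarith
      rw [Real.sign_of_neg (hneg _ (by norm_num)), Real.sign_of_neg (hneg _ hy2)]
  have hab : (u.1 * v.2) * (u.2 * v.1) < 0 := by linarith [hPQ, mul_comm (u.1 * v.1) (u.2 * v.2),
    (by ring : (u.1 * v.2) * (u.2 * v.1) = (u.1 * v.1) * (u.2 * v.2))]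
  unfold dt at hd
  set a := u.1 * v.2 with ha
  set b := u.2 * v.1 with hb
  have hapos : 0 < a := by
    by_contra hc
    push Not at hc
    have hb1 : b < 0 := by linarith
    have := mul_nonneg_of_nonpos_of_nonpos hc hb1.le
    linarith
  have hbneg : b < 0 := by
    by_contra hc
    push Not at hc
    have := mul_nonneg hapos.le hc
    linarith
  have ha5 : |a| ≤ 5 := by rw [abs_of_pos hapos]; omega
  have hb5 : |b| ≤ 5 := by rw [abs_of_neg hbneg]; omega
  have hu1 : u.1 ≠ 0 := by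
    intro h
    rw [ha, h, zero_mul] at hapos
    exact lt_irrefl _ hapos
  have hu2 : u.2 ≠ 0 := by
    intro h
    rw [hb, h, zero_mul] at hbneg
    exact lt_irrefl _ hbneg
  have k1 : 1 ≤ |u.1| := Int.one_le_abs hu1
  have k2 : 1 ≤ |u.2| := Int.one_le_abs hu2
  have k3 : 1 ≤ |v.1| := Int.one_le_abs h1
  have k4 : 1 ≤ |v.2| := Int.one_le_abs h2
  rw [ha, abs_mul] at ha5
  rw [hb, abs_mul] at hb5
  refine ⟨?_, ?_, ?_, ?_⟩
  · nlinarith
  · nlinarith
  · nlinarith
  · nlinarith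

theorem JI_YY (u : ℤ × ℤ) (x y : ℝ) : YY u x y = y / ip u u x y := by
  unfold YY Yr ip
  congr 1
  ring

/-- the high regime -/
theorem JI_high (v : ℤ × ℤ) (h1 : v.1 ≠ 0) (h2 : v.2 ≠ 0) (l l' y : ℝ) (hl : 0 < l)
    (hl' : 0 < l') (hll : l + l' ≤ 1 / 9) (hy : 0 < y) :
    3 < Real.exp (2 * (-(1 / 2) * Real.log (qq l l' y))) / (25 * YY v 0 y) := by
  have hq : 0 < qq l l' y := by unfold qq; positivity
  have e1 : Real.exp (2 * (-(1 / 2) * Real.log (qq l l' y))) = (qq l l' y)⁻¹ := by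
    have : 2 * (-(1 / 2) * Real.log (qq l l' y)) = -Real.log (qq l l' y) := by ring
    rw [this, Real.exp_neg, Real.exp_log hq]
  have hv1 : (1 : ℝ) ≤ (v.1 : ℝ) ^ 2 := by
    have := Int.one_le_abs h1
    have h : (1 : ℤ) ≤ v.1 ^ 2 := by nlinarith [sq_abs v.1]
    exact_mod_cast h
  have hv2 : (1 : ℝ) ≤ (v.2 : ℝ) ^ 2 := by
    have := Int.one_le_abs h2
    have h : (1 : ℤ) ≤ v.2 ^ 2 := by nlinarith [sq_abs v.2]
    exact_mod_cast h
  have hip : ip v v 0 y = (v.2 : ℝ) ^ 2 + (v.1 : ℝ) ^ 2 * y ^ 2 := by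
    unfold ip
    ring
  have hy2 : 0 < y ^ 2 := by positivity
  have hip' : 0 < ip v v 0 y := by
    rw [hip]
    positivity
  rw [JI_YY, e1]
  have hqy : qq l l' y * y = y ^ 2 * l' ^ 2 + l ^ 2 := by
    unfold qq
    field_simp
  have e2 : (qq l l' y)⁻¹ / (25 * (y / ip v v 0 y)) = ip v v 0 y / (25 * (qq l l' y * y)) := by
    field_simp
  rw [e2, lt_div_iff₀ (by positivity), hqy, hip]
  have hl9 : l ≤ 1 / 9 := by linarith
  have hl9' : l' ≤ 1 / 9 := by linarith
  have m1 : l ^ 2 ≤ 1 / 81 := by nlinarith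
  have m2 : l' ^ 2 ≤ 1 / 81 := by nlinarith
  have m3 : y ^ 2 * l' ^ 2 ≤ y ^ 2 * (1 / 81) := mul_le_mul_of_nonneg_left m2 hy2.le
  have m4 : y ^ 2 ≤ (v.1 : ℝ) ^ 2 * y ^ 2 := by nlinarith
  linarith

/-- the term with the signs at `(x, y)` -/
noncomputable def JI_T (g : ℝ → ℝ) (v : ℤ × ℤ) (s x y : ℝ) (m : ℤ) : ℝ :=
  1 / 2 * (Real.sign (ip (JI_u v m) v 0 1) - Real.sign (ip (JI_u v m) v x y)) *
    b0 g s (YY (JI_u v m) x y)

theorem JI_Bk (hRH : RH_stmt) (hMH : MH_stmt) (hMG : MG_stmt) (g : ℝ → ℝ) (hg : Prof g)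
    (v : ℤ × ℤ) (hv : v ∈ Pv) (s x y : ℝ) (hy : 0 < y)
    (hA : 3 ≤ Real.exp (2 * s) / (25 * YY v x y)) (k : ℤ) :
    Bk g s (XX v x y) (YY v x y) (XX v 0 1) k =
      JI_T g v s x y (5 * k + 1) - JI_T g v s x y (5 * k + 2) - JI_T g v s x y (5 * k + 3) +
        JI_T g v s x y (5 * k + 4) := by
  obtain ⟨-, -, hpos, hX, hYv, -⟩ := hMG
  have hYpos : 0 < YY v x y := by
    rw [hYv v hv x y hy]
    exact div_pos hy (hpos v hv x y hy)
  rw [hRH g hg s (XX v x y) (YY v x y) (XX v 0 1) k hYpos hA]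
  have key : ∀ (j : ℤ) (r : ℝ), r = (j : ℝ) / 5 →
      1 / 2 * (Real.sign (XX v 0 1 + k + r) - Real.sign (XX v x y + k + r)) *
        b1 g s (XX v x y + k + r) (YY v x y) = JI_T g v s x y (5 * k + j) := by
    intro j r hr
    have e0 : ∀ X : ℝ, X + k + r = X + ((5 * k + j : ℤ) : ℝ) / 5 := by
      intro X
      rw [hr]
      push_cast
      ring
    rw [e0, e0, hMH g hg v hv (5 * k + j) s x y hy, hX v hv 0 1 one_pos (5 * k + j),
      hX v hv x y hy (5 * k + j),
      JI_sign_div _ _ (mul_pos (by norm_num) (hpos v hv 0 1 one_pos)),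
      JI_sign_div _ _ (mul_pos (by norm_num) (hpos v hv x y hy))]
    rfl
  unfold c5
  rw [← key 1 (1 / 5) (by norm_num), ← key 2 (2 / 5) (by norm_num), ← key 3 (3 / 5) (by norm_num),
    ← key 4 (4 / 5) (by norm_num)]

theorem JI_Bk0 (hRH : RH_stmt) (g : ℝ → ℝ) (hg : Prof g) (s X Y X0 : ℝ) (hY : 0 < Y)
    (hA : 3 ≤ Real.exp (2 * s) / (25 * Y)) (K : ℕ) (hX : |X| + 2 ≤ K) (hX0 : |X0| + 2 ≤ K) (k : ℤ)
    (hk : k ∉ Finset.Icc (-(K : ℤ)) K) : Bk g s X Y X0 k = 0 := by
  rw [hRH g hg s X Y X0 k hY hA]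
  have key : ∀ r : ℝ, 0 ≤ r → r ≤ 1 →
      1 / 2 * (Real.sign (X0 + k + r) - Real.sign (X + k + r)) * b1 g s (X + k + r) Y = 0 := by
    intro r hr0 hr1
    have : Real.sign (X0 + k + r) = Real.sign (X + k + r) := by
      rw [Finset.mem_Icc, not_and_or] at hk
      have a1 := neg_abs_le X
      have a2 := le_abs_self X
      have b1 := neg_abs_le X0
      have b2 := le_abs_self X0
      rcases hk with hk | hk
      · push Not at hk
        have hk' : (k : ℝ) < -(K : ℝ) := by exact_mod_cast hk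
        rw [Real.sign_of_neg (by linarith), Real.sign_of_neg (by linarith)]
      · push Not at hk
        have hk' : (K : ℝ) < (k : ℝ) := by exact_mod_cast hk
        rw [Real.sign_of_pos (by linarith), Real.sign_of_pos (by linarith)]
    rw [this]
    ring
  unfold c5
  have q1 := key (1 / 5) (by norm_num) (by norm_num)
  have q2 := key (2 / 5) (by norm_num) (by norm_num)
  have q3 := key (3 / 5) (by norm_num) (by norm_num)
  have q4 := key (4 / 5) (by norm_num) (by norm_num)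
  beta_reduce
  rw [q1, q2, q3, q4]
  ring

theorem JI_ipcont (u v : ℤ × ℤ) (y : ℝ) : Continuous (fun x => ip u v x y) := by
  unfold ip
  fun_prop

theorem JI_b0diff (g : ℝ → ℝ) (hg : Prof g) (u : ℤ × ℤ) (s x y : ℝ) (hy : 0 < y)
    (hu : 0 < ip u u x y) : DifferentiableAt ℝ (fun x => b0 g s (YY u x y)) x := by
  have h1 : DifferentiableAt ℝ (fun x => YY u x y) x := by
    have : (fun x => YY u x y) = fun x => y / ip u u x y := by
      funext t
      exact JI_YY u t y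
    rw [this]
    have h0 : DifferentiableAt ℝ (fun x => ip u u x y) x := by
      unfold ip
      fun_prop
    exact DifferentiableAt.fun_div (differentiableAt_const y) h0 hu.ne'
  have h2 : 0 < YY u x y := by
    rw [JI_YY]
    exact div_pos hy hu
  unfold b0
  apply DifferentiableAt.mul
  · exact h1.sqrt h2.ne'
  · have hgd : Differentiable ℝ g := hg.smooth.differentiable (by simp)
    exact (hgd _).comp x (h1.const_mul _)

/-- locally constant signs -/
theorem JI_locsign (hMG : MG_stmt) (g : ℝ → ℝ) (hg : Prof g) (v : ℤ × ℤ) (hv : v ∈ Pv) (s y : ℝ)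
    (hy : 0 < y) (hA : 3 < Real.exp (2 * s) / (25 * YY v 0 y)) (m : ℤ) :
    ∀ᶠ x in 𝓝 (0 : ℝ), JI_T g v s x y m =
      1 / 2 * (Real.sign (ip (JI_u v m) v 0 1) - Real.sign (ip (JI_u v m) v 0 y)) *
        b0 g s (YY (JI_u v m) x y) := by
  obtain ⟨hdt, -, hpos, -, -, hid⟩ := hMG
  have hd := JI_dt v m (hdt v hv)
  set u := JI_u v m with hu
  have hc : ContinuousAt (fun x => ip u v x y) 0 := (JI_ipcont u v y).continuousAt
  by_cases h0 : ip u v 0 y = 0
  · have hvv := hpos v hv 0 y hy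
    have hI := hid u v 0 y
    rw [h0, hd] at hI
    push_cast at hI
    have huu : 0 < ip u u 0 y := by
      by_contra hcon
      push Not at hcon
      nlinarith [pow_pos hy 2, mul_nonneg (neg_nonneg.2 hcon) hvv.le]
    have e1 : Real.exp (2 * s) * YY u 0 y = Real.exp (2 * s) / (25 * YY v 0 y) := by
      rw [JI_YY, JI_YY]
      field_simp
      nlinarith [hI]
    have hc2 : ContinuousAt (fun x => Real.exp (2 * s) * YY u x y) 0 := by
      have : (fun x => Real.exp (2 * s) * YY u x y) = fun x => Real.exp (2 * s) * (y / ip u u x y) := by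
        funext t
        rw [JI_YY]
      rw [this]
      apply ContinuousAt.mul continuousAt_const
      exact ContinuousAt.div continuousAt_const (JI_ipcont u u y).continuousAt huu.ne'
    have h3 : ∀ᶠ x in 𝓝 (0 : ℝ), 3 < Real.exp (2 * s) * YY u x y := by
      apply hc2.eventually_const_lt
      show 3 < Real.exp (2 * s) * YY u 0 y
      rw [e1]
      exact hA
    filter_upwards [h3] with x hx
    have : b0 g s (YY u x y) = 0 := by
      unfold b0
      rw [hg.hi _ hx.le, mul_zero]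
    unfold JI_T
    rw [← hu, this, mul_zero, mul_zero]
  · have h3 : ∀ᶠ x in 𝓝 (0 : ℝ), Real.sign (ip u v x y) = Real.sign (ip u v 0 y) := by
      rcases lt_or_gt_of_ne h0 with h | h
      · have : ∀ᶠ x in 𝓝 (0 : ℝ), ip u v x y < 0 := hc.eventually_lt_const h
        filter_upwards [this] with x hx
        rw [Real.sign_of_neg hx, Real.sign_of_neg h]
      · have : ∀ᶠ x in 𝓝 (0 : ℝ), 0 < ip u v x y := hc.eventually_const_lt h
        filter_upwards [this] with x hx
        rw [Real.sign_of_pos hx, Real.sign_of_pos h]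
    filter_upwards [h3] with x hx
    unfold JI_T
    rw [← hu, hx]

/-- the frozen coefficient times the derivative -/
noncomputable def JI_E (g : ℝ → ℝ) (v : ℤ × ℤ) (s y : ℝ) (m : ℤ) : ℝ :=
  1 / 2 * (Real.sign (ip (JI_u v m) v 0 1) - Real.sign (ip (JI_u v m) v 0 y)) *
    dX (fun s x y => b0 g s (YY (JI_u v m) x y)) s 0 y

theorem JI_loc (hRH : RH_stmt) (hMH : MH_stmt) (hMG : MG_stmt) (g : ℝ → ℝ) (hg : Prof g)
    (v : ℤ × ℤ) (hv : v ∈ Pv) (s y : ℝ) (hy : 0 < y)
    (hA : 3 < Real.exp (2 * s) / (25 * YY v 0 y)) :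
    ∃ K0 : ℕ, ∀ K : ℕ, K0 ≤ K → dX (RV g v) s 0 y =
      ∑ k ∈ Finset.Icc (-(K : ℤ)) K, (JI_E g v s y (5 * k + 1) - JI_E g v s y (5 * k + 2) -
        JI_E g v s y (5 * k + 3) + JI_E g v s y (5 * k + 4)) := by
  have hMG' := hMG
  obtain ⟨hdt, -, hpos, hX, hYv, hid⟩ := hMG'
  refine ⟨⌈|XX v 0 1| + |XX v 0 y| + 3⌉₊, fun K hK => ?_⟩
  have hK' : |XX v 0 1| + |XX v 0 y| + 3 ≤ (K : ℝ) :=
    (Nat.le_ceil _).trans (by exact_mod_cast hK)
  have hvv := hpos v hv 0 y hy
  -- continuity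
  have c1 : ContinuousAt (fun x => YY v x y) 0 := by
    have : (fun x => YY v x y) = fun x => y / ip v v x y := by
      funext t
      exact JI_YY v t y
    rw [this]
    exact ContinuousAt.div continuousAt_const (JI_ipcont v v y).continuousAt hvv.ne'
  have hY0 : 0 < YY v 0 y := by
    rw [JI_YY]
    exact div_pos hy hvv
  have c2 : ContinuousAt (fun x => Real.exp (2 * s) / (25 * YY v x y)) 0 := by
    apply ContinuousAt.div continuousAt_const (c1.const_mul _)
    positivity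
  have c3 : ContinuousAt (fun x => |XX v x y|) 0 := by
    have : (fun x => XX v x y) = fun x => ip (JI_u v 0) v x y / (5 * ip v v x y) := by
      funext t
      have := hX v hv t y hy 0
      rw [Int.cast_zero, zero_div, add_zero] at this
      exact this
    have hc : ContinuousAt (fun x => XX v x y) 0 := by
      rw [this]
      apply ContinuousAt.div (JI_ipcont _ _ y).continuousAt
      · exact ((JI_ipcont v v y).continuousAt).const_mul _
      · positivity
    exact hc.abs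
  have e1 : ∀ᶠ x in 𝓝 (0 : ℝ), 3 < Real.exp (2 * s) / (25 * YY v x y) :=
    c2.eventually_const_lt hA
  have e2 : ∀ᶠ x in 𝓝 (0 : ℝ), |XX v x y| < |XX v 0 y| + 1 :=
    c3.eventually_lt_const (by linarith)
  have e3 : ∀ᶠ x in 𝓝 (0 : ℝ), ∀ k ∈ Finset.Icc (-(K : ℤ)) K, ∀ j ∈ Finset.Icc (1 : ℤ) 4,
      JI_T g v s x y (5 * k + j) =
      1 / 2 * (Real.sign (ip (JI_u v (5 * k + j)) v 0 1) -
        Real.sign (ip (JI_u v (5 * k + j)) v 0 y)) * b0 g s (YY (JI_u v (5 * k + j)) x y) := by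
    rw [Filter.eventually_all_finset]
    intro k _
    rw [Filter.eventually_all_finset]
    intro j _
    exact JI_locsign hMG g hg v hv s y hy hA (5 * k + j)
  have hev : (fun x => RV g v s x y) =ᶠ[𝓝 0] fun x =>
      ∑ k ∈ Finset.Icc (-(K : ℤ)) K,
        (1 / 2 * (Real.sign (ip (JI_u v (5 * k + 1)) v 0 1) -
          Real.sign (ip (JI_u v (5 * k + 1)) v 0 y)) * b0 g s (YY (JI_u v (5 * k + 1)) x y) -
        1 / 2 * (Real.sign (ip (JI_u v (5 * k + 2)) v 0 1) -
          Real.sign (ip (JI_u v (5 * k + 2)) v 0 y)) * b0 g s (YY (JI_u v (5 * k + 2)) x y) -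
        1 / 2 * (Real.sign (ip (JI_u v (5 * k + 3)) v 0 1) -
          Real.sign (ip (JI_u v (5 * k + 3)) v 0 y)) * b0 g s (YY (JI_u v (5 * k + 3)) x y) +
        1 / 2 * (Real.sign (ip (JI_u v (5 * k + 4)) v 0 1) -
          Real.sign (ip (JI_u v (5 * k + 4)) v 0 y)) * b0 g s (YY (JI_u v (5 * k + 4)) x y)) := by
    filter_upwards [e1, e2, e3] with x h1 h2 h3
    show RR g s (XX v x y) (YY v x y) (XX v 0 1) = _
    have hYpos : 0 < YY v x y := by
      rw [hYv v hv x y hy]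
      exact div_pos hy (hpos v hv x y hy)
    unfold RR
    rw [tsum_eq_sum (s := Finset.Icc (-(K : ℤ)) K)]
    · apply Finset.sum_congr rfl
      intro k hk
      rw [JI_Bk hRH hMH hMG g hg v hv s x y hy h1.le k, h3 k hk 1 (by simp), h3 k hk 2 (by simp),
        h3 k hk 3 (by simp), h3 k hk 4 (by simp)]
    · intro k hk
      have a1 := abs_nonneg (XX v 0 1)
      have a2 := abs_nonneg (XX v 0 y)
      exact JI_Bk0 hRH g hg s _ _ _ hYpos h1.le K (by linarith) (by linarith) k hk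
  have hderiv : HasDerivAt (fun x => RV g v s x y)
      (∑ k ∈ Finset.Icc (-(K : ℤ)) K, (JI_E g v s y (5 * k + 1) - JI_E g v s y (5 * k + 2) -
        JI_E g v s y (5 * k + 3) + JI_E g v s y (5 * k + 4))) 0 := by
    refine HasDerivAt.congr_of_eventuallyEq ?_ hev
    have hone : ∀ m : ℤ, HasDerivAt (fun x =>
        1 / 2 * (Real.sign (ip (JI_u v m) v 0 1) - Real.sign (ip (JI_u v m) v 0 y)) *
          b0 g s (YY (JI_u v m) x y)) (JI_E g v s y m) 0 := by
      intro m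
      have hI := hid (JI_u v m) v 0 y
      rw [JI_dt v m (hdt v hv)] at hI
      push_cast at hI
      have huu : 0 < ip (JI_u v m) (JI_u v m) 0 y := by
        by_contra hcon
        push Not at hcon
        nlinarith [pow_pos hy 2, mul_nonneg (neg_nonneg.2 hcon) hvv.le,
          sq_nonneg (ip (JI_u v m) v 0 y)]
      have := (JI_b0diff g hg (JI_u v m) s 0 y hy huu).hasDerivAt
      exact this.const_mul _
    apply HasDerivAt.fun_sum
    intro k _
    exact (((hone _).sub (hone _)).sub (hone _)).add (hone _)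
  exact hderiv.deriv

/-- the final integrand -/
noncomputable def JI_F (g : ℝ → ℝ) (v : ℤ × ℤ) (l l' : ℝ) (m : ℤ) (y : ℝ) : ℝ :=
  1 / 2 * (Real.sign (ip (JI_u v m) v 0 1) - Real.sign (ip (JI_u v m) v 0 y)) *
    gu g (JI_u v m).1 (JI_u v m).2 l l' y

/-- the range -/
def JI_M (v : ℤ × ℤ) : ℕ := 5 + 5 * (cpl v).1.natAbs

theorem JI_F0 (hMG : MG_stmt) (g : ℝ → ℝ) (v : ℤ × ℤ) (hv : v ∈ Pv) (h1 : v.1 ≠ 0)
    (h2 : v.2 ≠ 0) (l l' y : ℝ) (hy : 0 < y) (m : ℤ)
    (h : 5 < |v.1| ∨ 5 < |v.2| ∨ (JI_M v : ℤ) < |m|) :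
    Real.sign (ip (JI_u v m) v 0 1) = Real.sign (ip (JI_u v m) v 0 y) := by
  by_contra hcon
  obtain ⟨a1, -, a3, a4⟩ := JI_small (JI_u v m) v y hy (JI_dt v m (hMG.1 v hv)) h1 h2 hcon
  rcases h with h | h | h
  · omega
  · omega
  · rw [JI_u1] at a1
    have k3 : 1 ≤ |v.1| := Int.one_le_abs h1
    have : |m| ≤ |m * v.1| := by
      rw [abs_mul]
      nlinarith [abs_nonneg m]
    have h5 : |m * v.1| ≤ |5 * (cpl v).1 + m * v.1| + |5 * (cpl v).1| := by
      have := abs_sub (5 * (cpl v).1 + m * v.1) (5 * (cpl v).1)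
      have e : 5 * (cpl v).1 + m * v.1 - 5 * (cpl v).1 = m * v.1 := by ring
      rw [e] at this
      exact this
    rw [abs_mul 5] at h5
    have h6 : |(5 : ℤ)| = 5 := by norm_num
    rw [h6] at h5
    have h7 : (JI_M v : ℤ) = 5 + 5 * |(cpl v).1| := by
      unfold JI_M
      push_cast
      rfl
    omega

/-- the pointwise formula -/
theorem JI_formula (hRH : RH_stmt) (hMH : MH_stmt) (hMG : MG_stmt) (hKU : KU_stmt) (g : ℝ → ℝ)
    (hg : Prof g) (v : ℤ × ℤ) (hv : v ∈ Pv) (h1 : v.1 ≠ 0) (h2 : v.2 ≠ 0) (l l' y : ℝ)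
    (hl : 0 < l) (hl' : 0 < l') (hll : l + l' ≤ 1 / 9) (hy : 0 < y) :
    1 / √(qq l l' y) * dX (RV g v) (-(1 / 2) * Real.log (qq l l' y)) 0 y =
      ∑ k ∈ Finset.Icc (-(JI_M v : ℤ)) (JI_M v), (JI_F g v l l' (5 * k + 1) y -
        JI_F g v l l' (5 * k + 2) y - JI_F g v l l' (5 * k + 3) y + JI_F g v l l' (5 * k + 4) y) := by
  obtain ⟨K0, hK0⟩ := JI_loc hRH hMH hMG g hg v hv (-(1 / 2) * Real.log (qq l l' y)) y hy
    (JI_high v h1 h2 l l' y hl hl' hll hy)
  have hK := hK0 (max K0 (JI_M v)) (le_max_left _ _)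
  rw [hK, Finset.mul_sum]
  have hterm : ∀ m : ℤ, ¬ (5 : ℤ) ∣ m → 1 / √(qq l l' y) *
      JI_E g v (-(1 / 2) * Real.log (qq l l' y)) y m = JI_F g v l l' m y := by
    intro m hm
    have hu := JI_pv v m (hMG.1 v hv) hv hm
    have := hKU g hg (JI_u v m) hu l l' y hl hl' hy
    unfold JI_E JI_F
    rw [← this]
    ring
  have hsum : ∀ k ∈ Finset.Icc (-((max K0 (JI_M v) : ℕ) : ℤ)) ((max K0 (JI_M v) : ℕ) : ℤ),
      1 / √(qq l l' y) * (JI_E g v (-(1 / 2) * Real.log (qq l l' y)) y (5 * k + 1) -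
        JI_E g v (-(1 / 2) * Real.log (qq l l' y)) y (5 * k + 2) -
        JI_E g v (-(1 / 2) * Real.log (qq l l' y)) y (5 * k + 3) +
        JI_E g v (-(1 / 2) * Real.log (qq l l' y)) y (5 * k + 4)) =
      JI_F g v l l' (5 * k + 1) y -
        JI_F g v l l' (5 * k + 2) y - JI_F g v l l' (5 * k + 3) y + JI_F g v l l' (5 * k + 4) y := by
    intro k _
    rw [← hterm (5 * k + 1) (by omega), ← hterm (5 * k + 2) (by omega),
      ← hterm (5 * k + 3) (by omega), ← hterm (5 * k + 4) (by omega)]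
    ring
  rw [Finset.sum_congr rfl hsum]
  symm
  apply Finset.sum_subset
  · apply Finset.Icc_subset_Icc
    · have : ((JI_M v : ℕ) : ℤ) ≤ ((max K0 (JI_M v) : ℕ) : ℤ) := by
        exact_mod_cast le_max_right _ _
      omega
    · exact_mod_cast le_max_right _ _
  · intro k _ hk
    have hz : ∀ j : ℤ, 1 ≤ j → j ≤ 4 → JI_F g v l l' (5 * k + j) y = 0 := by
      intro j hj1 hj4
      have hbig : (JI_M v : ℤ) < |5 * k + j| := by
        rw [Finset.mem_Icc, not_and_or] at hk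
        rcases hk with hk | hk
        · rw [lt_abs]
          right
          omega
        · rw [lt_abs]
          left
          omega
      have := JI_F0 hMG g v hv h1 h2 l l' y hy (5 * k + j) (Or.inr (Or.inr hbig))
      unfold JI_F
      rw [this]
      ring
    rw [hz 1 (by norm_num) (by norm_num), hz 2 (by norm_num) (by norm_num),
      hz 3 (by norm_num) (by norm_num), hz 4 (by norm_num) (by norm_num)]
    ring

theorem JI_signmeas (u v : ℤ × ℤ) : Measurable (fun y : ℝ => Real.sign (ip u v 0 y)) := by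
  have hc : Continuous (fun y : ℝ => ip u v 0 y) := by
    unfold ip
    fun_prop
  have hs : Measurable Real.sign := by
    unfold Real.sign
    exact Measurable.ite measurableSet_Iio measurable_const
      (Measurable.ite measurableSet_Ioi measurable_const measurable_const)
  exact hs.comp hc.measurable

theorem JI_signle (a : ℝ) : |Real.sign a| ≤ 1 := by
  rcases Real.sign_apply_eq a with h | h | h <;> rw [h] <;> norm_num

theorem JI_coef (a b : ℝ) : |1 / 2 * (Real.sign a - Real.sign b)| ≤ 1 := by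
  rw [abs_mul]
  have h1 := JI_signle a
  have h2 := JI_signle b
  have h3 := abs_sub (Real.sign a) (Real.sign b)
  have h4 : |(1 / 2 : ℝ)| = 1 / 2 := by norm_num
  rw [h4]
  linarith

theorem JI_Fint (g : ℝ → ℝ) (v : ℤ × ℤ) (l l' C : ℝ) (m : ℤ)
    (hi : IntegrableOn (gu g (JI_u v m).1 (JI_u v m).2 l l') (Ioi 0))
    (hb : ∫ y in Ioi (0 : ℝ), |gu g (JI_u v m).1 (JI_u v m).2 l l' y| ≤ C) :
    IntegrableOn (fun y => JI_F g v l l' m y) (Ioi 0) ∧
      |∫ y in Ioi (0 : ℝ), JI_F g v l l' m y| ≤ C := by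
  have h1 : IntegrableOn (fun y => JI_F g v l l' m y) (Ioi 0) := by
    unfold JI_F
    refine Integrable.bdd_mul (c := 1) hi ?_ ?_
    · exact ((measurable_const.sub (JI_signmeas _ _)).const_mul _).aestronglyMeasurable
    · exact Filter.Eventually.of_forall fun y => JI_coef _ _
  refine ⟨h1, ?_⟩
  calc |∫ y in Ioi (0 : ℝ), JI_F g v l l' m y| ≤ ∫ y in Ioi (0 : ℝ), |JI_F g v l l' m y| :=
        abs_integral_le_integral_abs
    _ ≤ ∫ y in Ioi (0 : ℝ), |gu g (JI_u v m).1 (JI_u v m).2 l l' y| := by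
        apply integral_mono h1.abs hi.abs
        intro y
        show |JI_F g v l l' m y| ≤ |gu g (JI_u v m).1 (JI_u v m).2 l l' y|
        unfold JI_F
        rw [abs_mul]
        exact mul_le_of_le_one_left (abs_nonneg _) (JI_coef _ _)
    _ ≤ C := hb

theorem JI (hRH : RH_stmt) (hMH : MH_stmt) (hMG : MG_stmt) (hKU : KU_stmt) (hGU : GU_stmt) :
    JI_stmt := by
  intro g hg
  obtain ⟨C, hC, hgu⟩ := hGU g hg
  refine ⟨∑ v ∈ (Finset.Icc (-5 : ℤ) 5) ×ˢ (Finset.Icc (-5 : ℤ) 5),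
    ∑ k ∈ Finset.Icc (-(JI_M v : ℤ)) (JI_M v), 4 * C, ?_⟩
  intro l l' hl hl' hll v hv h1 h2
  have hform : ∀ y : ℝ, 0 < y → _ := fun y hy =>
    JI_formula hRH hMH hMG hKU g hg v hv h1 h2 l l' y hl hl' hll hy
  have hF : ∀ m : ℤ, IntegrableOn (fun y => JI_F g v l l' m y) (Ioi 0) ∧
      |∫ y in Ioi (0 : ℝ), JI_F g v l l' m y| ≤ C := by
    intro m
    obtain ⟨a, -, b, -, -⟩ := hgu (JI_u v m).1 (JI_u v m).2 l l' hl hl'
    exact JI_Fint g v l l' C m a b
  have hEq : EqOn (fun y => ∑ k ∈ Finset.Icc (-(JI_M v : ℤ)) (JI_M v),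
      (JI_F g v l l' (5 * k + 1) y - JI_F g v l l' (5 * k + 2) y - JI_F g v l l' (5 * k + 3) y +
        JI_F g v l l' (5 * k + 4) y))
      (fun y => 1 / √(qq l l' y) * dX (RV g v) (-(1 / 2) * Real.log (qq l l' y)) 0 y) (Ioi 0) :=
    fun y hy => (hform y hy).symm
  have hblock : ∀ k : ℤ, IntegrableOn (fun y => JI_F g v l l' (5 * k + 1) y -
      JI_F g v l l' (5 * k + 2) y - JI_F g v l l' (5 * k + 3) y +
        JI_F g v l l' (5 * k + 4) y) (Ioi 0) := by
    intro k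
    exact (((hF _).1.sub (hF _).1).sub (hF _).1).add (hF _).1
  have hblock2 : ∀ k : ℤ, |∫ y in Ioi (0 : ℝ), (JI_F g v l l' (5 * k + 1) y -
      JI_F g v l l' (5 * k + 2) y - JI_F g v l l' (5 * k + 3) y +
        JI_F g v l l' (5 * k + 4) y)| ≤ 4 * C := by
    intro k
    have i1 := (hF (5 * k + 1)).1
    have i2 := (hF (5 * k + 2)).1
    have i3 := (hF (5 * k + 3)).1
    have i4 := (hF (5 * k + 4)).1
    have s1 : ∫ y in Ioi (0 : ℝ), (JI_F g v l l' (5 * k + 1) y - JI_F g v l l' (5 * k + 2) y) =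
        (∫ y in Ioi (0 : ℝ), JI_F g v l l' (5 * k + 1) y) -
          ∫ y in Ioi (0 : ℝ), JI_F g v l l' (5 * k + 2) y := integral_sub i1 i2
    have j1 : IntegrableOn (fun y => JI_F g v l l' (5 * k + 1) y - JI_F g v l l' (5 * k + 2) y)
        (Ioi 0) := i1.sub i2
    have s2 : ∫ y in Ioi (0 : ℝ), (JI_F g v l l' (5 * k + 1) y - JI_F g v l l' (5 * k + 2) y -
        JI_F g v l l' (5 * k + 3) y) =
        (∫ y in Ioi (0 : ℝ), (JI_F g v l l' (5 * k + 1) y - JI_F g v l l' (5 * k + 2) y)) -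
          ∫ y in Ioi (0 : ℝ), JI_F g v l l' (5 * k + 3) y := integral_sub j1 i3
    have j2 : IntegrableOn (fun y => JI_F g v l l' (5 * k + 1) y - JI_F g v l l' (5 * k + 2) y -
        JI_F g v l l' (5 * k + 3) y) (Ioi 0) := j1.sub i3
    have s3 : ∫ y in Ioi (0 : ℝ), (JI_F g v l l' (5 * k + 1) y - JI_F g v l l' (5 * k + 2) y -
        JI_F g v l l' (5 * k + 3) y + JI_F g v l l' (5 * k + 4) y) =
        (∫ y in Ioi (0 : ℝ), (JI_F g v l l' (5 * k + 1) y - JI_F g v l l' (5 * k + 2) y -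
        JI_F g v l l' (5 * k + 3) y)) +
          ∫ y in Ioi (0 : ℝ), JI_F g v l l' (5 * k + 4) y := integral_add j2 i4
    rw [s3, s2, s1]
    have b1 := abs_le.1 (hF (5 * k + 1)).2
    have b2 := abs_le.1 (hF (5 * k + 2)).2
    have b3 := abs_le.1 (hF (5 * k + 3)).2
    have b4 := abs_le.1 (hF (5 * k + 4)).2
    rw [abs_le]
    constructor <;> linarith [b1.1, b1.2, b2.1, b2.2, b3.1, b3.2, b4.1, b4.2]
  have hsmall0 : (5 < |v.1| ∨ 5 < |v.2|) → ∀ y, 0 < y →
      dX (RV g v) (-(1 / 2) * Real.log (qq l l' y)) 0 y = 0 := by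
    intro h5 y hy
    obtain ⟨K0, hK0⟩ := JI_loc hRH hMH hMG g hg v hv (-(1 / 2) * Real.log (qq l l' y)) y hy
      (JI_high v h1 h2 l l' y hl hl' hll hy)
    rw [hK0 K0 le_rfl]
    apply Finset.sum_eq_zero
    intro k _
    have hz : ∀ m : ℤ, JI_E g v (-(1 / 2) * Real.log (qq l l' y)) y m = 0 := by
      intro m
      unfold JI_E
      rw [JI_F0 hMG g v hv h1 h2 l l' y hy m (by tauto)]
      ring
    rw [hz, hz, hz, hz]
    ring
  refine ⟨?_, ?_, hsmall0⟩
  · refine IntegrableOn.congr_fun ?_ hEq measurableSet_Ioi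
    exact integrable_finset_sum _ fun k _ => hblock k
  · by_cases h5 : 5 < |v.1| ∨ 5 < |v.2|
    · have hz : ∫ y in Ioi (0 : ℝ), 1 / √(qq l l' y) *
          dX (RV g v) (-(1 / 2) * Real.log (qq l l' y)) 0 y = 0 := by
        rw [setIntegral_congr_fun measurableSet_Ioi (g := fun _ => (0 : ℝ))]
        · simp
        · intro y hy
          show 1 / √(qq l l' y) * dX (RV g v) (-(1 / 2) * Real.log (qq l l' y)) 0 y = (0 : ℝ)
          rw [hsmall0 h5 y hy, mul_zero]
      rw [hz, abs_zero]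
      apply Finset.sum_nonneg
      intro w _
      apply Finset.sum_nonneg
      intro k _
      positivity
    · push Not at h5
      have hmem : v ∈ (Finset.Icc (-5 : ℤ) 5) ×ˢ (Finset.Icc (-5 : ℤ) 5) := by
        rw [Finset.mem_product, Finset.mem_Icc, Finset.mem_Icc]
        exact ⟨abs_le.1 h5.1, abs_le.1 h5.2⟩
      rw [← setIntegral_congr_fun measurableSet_Ioi hEq,
        integral_finset_sum _ fun k _ => hblock k]
      calc |∑ k ∈ Finset.Icc (-(JI_M v : ℤ)) (JI_M v), ∫ y in Ioi (0 : ℝ),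
            (JI_F g v l l' (5 * k + 1) y - JI_F g v l l' (5 * k + 2) y -
              JI_F g v l l' (5 * k + 3) y + JI_F g v l l' (5 * k + 4) y)|
          ≤ ∑ k ∈ Finset.Icc (-(JI_M v : ℤ)) (JI_M v), 4 * C := by
            refine (Finset.abs_sum_le_sum_abs _ _).trans ?_
            exact Finset.sum_le_sum fun k _ => hblock2 k
        _ ≤ ∑ v ∈ (Finset.Icc (-5 : ℤ) 5) ×ˢ (Finset.Icc (-5 : ℤ) 5),
            ∑ k ∈ Finset.Icc (-(JI_M v : ℤ)) (JI_M v), 4 * C := by
            refine Finset.single_le_sum (f := fun v : ℤ × ℤ =>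
              ∑ k ∈ Finset.Icc (-(JI_M v : ℤ)) (JI_M v), 4 * C) ?_ hmem
            intro w _
            apply Finset.sum_nonneg
            intro k _
            positivity

end SF
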